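import Pool.Agent.H16.ORB.C

/-!
# MP_5182ad_lc, oracle barrier: row HSM (sum over the heavy sets)
-/

open Classical Finset

namespace Pool.ORB

section
variable {E Nd Sg W : Type} [Fintype E] [Fintype W] [Fintype Sg]

theorem hsm_wt_nonneg (D : Dat E Nd Sg W) (ρ u : FS E Nd) : 0 ≤ D.wt ρ u := by
  unfold Dat.wt
  split_ifs
  · positivity
  · exact le_rfl

theorem hsm_Tp_pos (D : Dat E Nd Sg W) : 0 < Tp D.p := by
  have := D.hp
  unfold Tp
  positivity

theorem hsm_Hp_pos (D : Dat E Nd Sg W) : 0 < Hp D.p := by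
  unfold Hp
  positivity

theorem hsm_q_pos (D : Dat E Nd Sg W) : 0 < D.q := by
  have h1 := D.hq
  have h2 := hsm_Tp_pos D
  have h3 := hsm_Hp_pos D
  have h4 : 0 < 16 * Hp D.p * (Tp D.p) ^ 2 := by positivity
  omega

theorem hsm_eps_pos (D : Dat E Nd Sg W) : 0 < D.ε := by
  have h2 := hsm_Tp_pos D
  have h3 := hsm_Hp_pos D
  unfold Dat.ε
  positivity

theorem hsm_M_pos (D : Dat E Nd Sg W) : 0 < D.M := by
  unfold Dat.M
  positivity

/-- the sum over the subsets of one record -/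
theorem hsm_sub (hv : Finset (FS E Nd)) (hne : ∀ g ∈ hv, g.Nonempty) (u : FS E Nd) (x : ℝ)
    (hx : 0 ≤ x) :
    ∑ g ∈ hv.filter (fun g => g ⊆ u), x ^ g.card ≤ (1 + x) ^ u.card - 1 := by
  have h1 : ∑ g ∈ u.powerset, x ^ g.card = (1 + x) ^ u.card := by
    have := Finset.sum_pow_mul_eq_add_pow x 1 u
    simp only [one_pow, mul_one] at this
    rw [this, add_comm]
  have h2 : hv.filter (fun g => g ⊆ u) ⊆ u.powerset.erase ∅ := by
    intro g hg
    rw [mem_filter] at hg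
    rw [mem_erase, mem_powerset]
    exact ⟨(hne g hg.1).ne_empty, hg.2⟩
  have h3 : ∑ g ∈ hv.filter (fun g => g ⊆ u), x ^ g.card ≤
      ∑ g ∈ u.powerset.erase ∅, x ^ g.card :=
    Finset.sum_le_sum_of_subset_of_nonneg h2 (fun g _ _ => by positivity)
  have h4 : x ^ (∅ : FS E Nd).card + ∑ g ∈ u.powerset.erase ∅, x ^ g.card =
      ∑ g ∈ u.powerset, x ^ g.card :=
    Finset.add_sum_erase u.powerset (fun g => x ^ g.card) (Finset.empty_mem_powerset u)
  rw [Finset.card_empty, pow_zero] at h4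
  linarith

/-- a heavy set is contained in a record -/
theorem hsm_heavy_mem (D : Dat E Nd Sg W) (s : St E Nd Sg) (g : FS E Nd) (hg : D.Heavy s g) :
    ∃ σ, ∃ l ∈ s.F σ, g ⊆ l.2 := by
  by_contra hcon
  push Not at hcon
  have h0 : D.mm s g = 0 := by
    unfold Dat.mm
    apply Finset.sum_eq_zero
    intro σ _
    apply Finset.sum_eq_zero
    intro l hl
    rw [mem_filter] at hl
    exact absurd hl.2 (hcon σ l hl.1)
  have h1 := hg.2.2.2
  rw [h0, mul_zero] at h1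
  have h2 : 0 < D.ε ^ g.card * D.M := mul_pos (pow_pos (hsm_eps_pos D) _) (hsm_M_pos D)
  linarith

/-- exchange of the sums -/
theorem hsm_exch (D : Dat E Nd Sg W) (s : St E Nd Sg) (hv : Finset (FS E Nd)) (x : ℝ) :
    ∑ g ∈ hv, x ^ g.card * D.mm s g =
      ∑ σ : Bool, ∑ l ∈ s.F σ, D.wt s.ρ l.2 * ∑ g ∈ hv.filter (fun g => g ⊆ l.2), x ^ g.card := by
  have h1 : ∀ g, x ^ g.card * D.mm s g =
      ∑ σ : Bool, ∑ l ∈ s.F σ, (if g ⊆ l.2 then x ^ g.card * D.wt s.ρ l.2 else 0) := by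
    intro g
    unfold Dat.mm
    rw [Finset.mul_sum]
    apply Finset.sum_congr rfl
    intro σ _
    rw [Finset.mul_sum, Finset.sum_filter]
  simp only [h1]
  rw [Finset.sum_comm]
  apply Finset.sum_congr rfl
  intro σ _
  rw [Finset.sum_comm]
  apply Finset.sum_congr rfl
  intro l _
  rw [Finset.mul_sum, Finset.sum_filter]
  apply Finset.sum_congr rfl
  intro g _
  split_ifs
  · ring
  · rfl

/-- the numerical estimate -/
theorem hsm_num (D : Dat E Nd Sg W) :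
    (1 + 1 / ((D.q : ℝ) * D.ε)) ^ Tp D.p - 1 ≤ 1 / 2 := by
  have hT : (0 : ℝ) < (Tp D.p : ℝ) := by exact_mod_cast hsm_Tp_pos D
  have hH : (0 : ℝ) < (Hp D.p : ℝ) := by exact_mod_cast hsm_Hp_pos D
  have hq : (0 : ℝ) < (D.q : ℝ) := by exact_mod_cast hsm_q_pos D
  have hqq : 16 * (Hp D.p : ℝ) * (Tp D.p : ℝ) ^ 2 ≤ (D.q : ℝ) := by exact_mod_cast D.hq
  have hx : 1 / ((D.q : ℝ) * D.ε) = 4 * (Hp D.p : ℝ) * (Tp D.p : ℝ) / (D.q : ℝ) := by
    unfold Dat.ε
    field_simp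
  set x : ℝ := 1 / ((D.q : ℝ) * D.ε) with hxdef
  have hx0 : 0 ≤ x := by rw [hx]; positivity
  have hTx : (Tp D.p : ℝ) * x ≤ 1 / 4 := by
    rw [hx, mul_div_assoc', div_le_iff₀ hq]
    nlinarith
  have h1 : 1 + x ≤ Real.exp x := by
    have := Real.add_one_le_exp x
    linarith
  have h2 : (1 + x) ^ Tp D.p ≤ Real.exp ((Tp D.p : ℝ) * x) := by
    rw [Real.exp_nat_mul]
    exact pow_le_pow_left₀ (by linarith) h1 _
  have h3 : Real.exp ((Tp D.p : ℝ) * x) ≤ Real.exp (1 / 4) := Real.exp_le_exp.mpr hTx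
  have h4 : (3 : ℝ) / 4 ≤ Real.exp (-(1 / 4)) := by
    have := Real.add_one_le_exp (-(1 / 4) : ℝ)
    linarith
  have h5 : Real.exp (1 / 4) * Real.exp (-(1 / 4)) = 1 := by
    rw [← Real.exp_add]
    norm_num
  have h6 : 0 < Real.exp (1 / 4 : ℝ) := Real.exp_pos _
  have h7 : Real.exp (1 / 4 : ℝ) ≤ 3 / 2 := by nlinarith
  linarith

end

theorem hsm : HSMStmt := by
  intro E Nd Sg W _ _ _ D s hpsi hlen
  have hM := hsm_M_pos D
  have hε := hsm_eps_pos D
  have hq : (0 : ℝ) < (D.q : ℝ) := by exact_mod_cast hsm_q_pos D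
  refine ⟨(((univ : Finset Bool).biUnion fun σ => (s.F σ).biUnion
    fun l => l.2.powerset)).filter (fun g => D.Heavy s g), ?_, ?_⟩
  · intro g
    rw [mem_filter]
    constructor
    · exact fun h => h.2
    · intro hg
      refine ⟨?_, hg⟩
      obtain ⟨σ, l, hl, hgl⟩ := hsm_heavy_mem D s g hg
      rw [mem_biUnion]
      refine ⟨σ, mem_univ _, ?_⟩
      rw [mem_biUnion]
      exact ⟨l, hl, mem_powerset.mpr hgl⟩
  · set hv := (((univ : Finset Bool).biUnion fun σ => (s.F σ).biUnion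
      fun l => l.2.powerset)).filter (fun g => D.Heavy s g) with hvdef
    have hheavy : ∀ g ∈ hv, D.Heavy s g := by
      intro g hg
      rw [hvdef, mem_filter] at hg
      exact hg.2
    set x : ℝ := 1 / ((D.q : ℝ) * D.ε) with hxdef
    have hx0 : 0 ≤ x := by rw [hxdef]; positivity
    have h1 : ∀ g ∈ hv, (1 / (D.q : ℝ) ^ 3) ^ g.card ≤ x ^ g.card * D.mm s g / D.M := by
      intro g hg
      have h2 := (hheavy g hg).2.2.2
      rw [le_div_iff₀ hM]
      have h3 : (1 / (D.q : ℝ) ^ 3) ^ g.card * D.M =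
          x ^ g.card * (1 / ((D.q : ℝ) ^ 2)) ^ g.card * (D.ε ^ g.card * D.M) := by
        rw [← mul_pow, ← mul_assoc, ← mul_pow]
        congr 2
        rw [hxdef]
        field_simp
      rw [h3]
      have h4 : x ^ g.card * (1 / ((D.q : ℝ) ^ 2)) ^ g.card * (D.ε ^ g.card * D.M) ≤
          x ^ g.card * (1 / ((D.q : ℝ) ^ 2)) ^ g.card *
            (((D.q : ℝ) ^ 2) ^ g.card * D.mm s g) :=
        mul_le_mul_of_nonneg_left h2 (by positivity)
      refine h4.trans (le_of_eq ?_)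
      have h5 : (1 / ((D.q : ℝ) ^ 2)) ^ g.card * ((D.q : ℝ) ^ 2) ^ g.card = 1 := by
        rw [← mul_pow, one_div_mul_cancel (by positivity), one_pow]
      calc x ^ g.card * (1 / ((D.q : ℝ) ^ 2)) ^ g.card * (((D.q : ℝ) ^ 2) ^ g.card * D.mm s g)
          = x ^ g.card * ((1 / ((D.q : ℝ) ^ 2)) ^ g.card * ((D.q : ℝ) ^ 2) ^ g.card) *
              D.mm s g := by ring
        _ = x ^ g.card * D.mm s g := by rw [h5, mul_one]
    have h6 : ∑ g ∈ hv, (1 / (D.q : ℝ) ^ 3) ^ g.card ≤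
        (∑ g ∈ hv, x ^ g.card * D.mm s g) / D.M := by
      rw [Finset.sum_div]
      exact Finset.sum_le_sum h1
    have h7 : ∑ g ∈ hv, x ^ g.card * D.mm s g ≤ D.Psi s * ((1 + x) ^ Tp D.p - 1) := by
      rw [hsm_exch]
      unfold Dat.Psi
      rw [Finset.sum_mul]
      apply Finset.sum_le_sum
      intro σ _
      rw [Finset.sum_mul]
      apply Finset.sum_le_sum
      intro l hl
      apply mul_le_mul_of_nonneg_left _ (hsm_wt_nonneg D _ _)
      refine (hsm_sub hv (fun g hg => (hheavy g hg).1) l.2 x hx0).trans ?_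
      have h8 : (1 + x) ^ l.2.card ≤ (1 + x) ^ Tp D.p :=
        pow_le_pow_right₀ (by linarith) (hlen σ l hl)
      linarith
    have h9 : D.Psi s * ((1 + x) ^ Tp D.p - 1) ≤ D.M * (1 / 2) := by
      have h10 : (0 : ℝ) ≤ (1 + x) ^ Tp D.p - 1 := by
        have : (1 : ℝ) ≤ (1 + x) ^ Tp D.p := one_le_pow₀ (by linarith)
        linarith
      calc D.Psi s * ((1 + x) ^ Tp D.p - 1) ≤ D.M * ((1 + x) ^ Tp D.p - 1) :=
            mul_le_mul_of_nonneg_right hpsi h10
        _ ≤ D.M * (1 / 2) := mul_le_mul_of_nonneg_left (hsm_num D) hM.le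
    refine h6.trans ?_
    rw [div_le_iff₀ hM]
    linarith

end Pool.ORB
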